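import Pool.Agent.H63.NS.P4Def

/-!
Shift of the long averages (MP_3ea55a_an, module M4): for the one coordinate average `A1` and for
the averages of products of translates in `BM`.
-/

set_option autoImplicit false

open MeasureTheory Finset Filter Topology
open scoped BigOperators

namespace Pool.Agent.H63.NS.P4

open Pool.Agent.H63.NS

/-- shifting an average over `range M` by an integer -/
lemma abs_av_ishift_le (M : ℕ) (s : ℤ) (x : ℤ → ℝ) (C : ℝ) (hx : ∀ m, |x m| ≤ C) :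
    |av (range M) (fun m : ℕ => x (s + m)) - av (range M) (fun m : ℕ => x m)| ≤ 2 * C * |(s : ℝ)| / M := by
  rcases le_total 0 s with h | h
  · obtain ⟨n, rfl⟩ := Int.eq_ofNat_of_zero_le h
    have h1 := abs_av_shift_le M n (fun m : ℕ => x m) C (fun m => hx _)
    have e : (fun m : ℕ => x (((m + n : ℕ) : ℤ))) = fun m : ℕ => x ((n : ℤ) + m) := by
      funext m; congr 1; push_cast; ring
    rw [e] at h1
    have e2 : |(((n : ℕ) : ℤ) : ℝ)| = (n : ℝ) := by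
      rw [Int.cast_natCast]; exact abs_of_nonneg (Nat.cast_nonneg n)
    rw [e2]
    exact h1
  · obtain ⟨n, hn⟩ := Int.eq_ofNat_of_zero_le (Int.neg_nonneg_of_nonpos h)
    have hs : s = -(n : ℤ) := by omega
    subst hs
    have h1 := abs_av_shift_le M n (fun m : ℕ => x (-(n : ℤ) + m)) C (fun m => hx _)
    have e : (fun m : ℕ => x (-(n : ℤ) + ((m + n : ℕ) : ℤ))) = fun m : ℕ => x m := by
      funext m; congr 1; push_cast; ring
    rw [e, abs_sub_comm] at h1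
    have e2 : |((-(n : ℤ) : ℤ) : ℝ)| = (n : ℝ) := by
      rw [Int.cast_neg, Int.cast_natCast, abs_neg]; exact abs_of_nonneg (Nat.cast_nonneg n)
    rw [e2]
    exact h1

/-- rounding a real number to the mesh `2^(-k)` -/
lemma round_mesh (k : ℕ) (u : ℝ) : ∃ (s : ℤ) (t : ℝ), u = (s : ℝ) / 2 ^ k + t ∧ |t| ≤ 1 / 2 ^ k ∧
    |(s : ℝ)| ≤ (|u| + 1) * 2 ^ k := by
  have hp : (0 : ℝ) < 2 ^ k := by positivity
  have hp1 : (1 : ℝ) ≤ 2 ^ k := one_le_pow₀ (by norm_num)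
  have h1 : (⌊u * 2 ^ k⌋ : ℝ) ≤ u * 2 ^ k := Int.floor_le _
  have h2 : u * 2 ^ k < ⌊u * 2 ^ k⌋ + 1 := Int.lt_floor_add_one _
  refine ⟨⌊u * 2 ^ k⌋, u - (⌊u * 2 ^ k⌋ : ℝ) / 2 ^ k, by ring, ?_, ?_⟩
  · have e : u - (⌊u * 2 ^ k⌋ : ℝ) / 2 ^ k = (u * 2 ^ k - ⌊u * 2 ^ k⌋) / 2 ^ k := by
      field_simp
    rw [e, abs_div, abs_of_pos hp]
    refine div_le_div_of_nonneg_right ?_ hp.le
    rw [abs_le]
    constructor <;> linarith
  · have h3 : |u| * 2 ^ k = |u * 2 ^ k| := by rw [abs_mul, abs_of_pos hp]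
    have h4 := abs_le.mp (le_refl |u * 2 ^ k|)
    rw [add_mul, one_mul, h3, abs_le]
    constructor <;> linarith [h4.1, h4.2]

/-- shift of the one coordinate average -/
lemma a1_shift (k K d : ℕ) (hK : 0 < K) {ψ : (ℕ → ℝ) → ℝ} {C ε : ℝ} (hC : ∀ z, |ψ z| ≤ C)
    (hε : ∀ z t, |t| ≤ 1 / 2 ^ k → |ψ (ad d t z) - ψ z| ≤ ε) (u : ℝ) (z : ℕ → ℝ) :
    |A1 k K d ψ (ad d u z) - A1 k K d ψ z| ≤ 2 * C * (|u| + 1) / K + ε := by
  obtain ⟨s, t, hu, ht, hs⟩ := round_mesh k u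
  have hC0 : 0 ≤ C := (abs_nonneg _).trans (hC z)
  have hp : (0 : ℝ) < 2 ^ k := by positivity
  have hK' : (0 : ℝ) < K := Nat.cast_pos.mpr hK
  have hne : (range (K * 2 ^ k)).Nonempty := range_ne hK
  set x : ℤ → ℝ := fun j => ψ (Function.update z d (z d + (j : ℝ) / 2 ^ k)) with hx
  have a1 : A1 k K d ψ z = av (range (K * 2 ^ k)) (fun m : ℕ => x m) := by
    unfold A1
    refine av_congr (fun m _ => ?_)
    rw [hx]
    simp only [Int.cast_natCast]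
  have a2 : |A1 k K d ψ (ad d u z) - av (range (K * 2 ^ k)) (fun m : ℕ => x (s + m))| ≤ ε := by
    unfold A1
    rw [← av_sub]
    refine abs_av_le hne (fun m _ => ?_)
    have e : Function.update (ad d u z) d (ad d u z d + (m : ℝ) / 2 ^ k) =
        ad d t (Function.update z d (z d + ((s + m : ℤ) : ℝ) / 2 ^ k)) := by
      unfold ad
      rw [Function.update_idem, Function.update_idem, Function.update_self, Function.update_self]
      congr 1
      rw [hu]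
      push_cast
      ring
    rw [e]
    exact hε _ _ ht
  have a3 := abs_av_ishift_le (K * 2 ^ k) s x C (fun j => hC _)
  have a4 : 2 * C * |(s : ℝ)| / ((K * 2 ^ k : ℕ) : ℝ) ≤ 2 * C * (|u| + 1) / K := by
    push_cast
    rw [div_le_div_iff₀ (by positivity) hK']
    have h5 : 2 * C * |(s : ℝ)| ≤ 2 * C * ((|u| + 1) * 2 ^ k) :=
      mul_le_mul_of_nonneg_left hs (by positivity)
    calc 2 * C * |(s : ℝ)| * K ≤ 2 * C * ((|u| + 1) * 2 ^ k) * K :=
          mul_le_mul_of_nonneg_right h5 hK'.le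
      _ = 2 * C * (|u| + 1) * (K * 2 ^ k) := by ring
  rw [a1]
  have e : A1 k K d ψ (ad d u z) - av (range (K * 2 ^ k)) (fun m : ℕ => x m) =
      (A1 k K d ψ (ad d u z) - av (range (K * 2 ^ k)) (fun m : ℕ => x (s + m))) +
      (av (range (K * 2 ^ k)) (fun m : ℕ => x (s + m)) - av (range (K * 2 ^ k)) (fun m : ℕ => x m)) := by
    ring
  rw [e]
  refine (abs_add_le _ _).trans ?_
  linarith

variable {Y : Type} [MeasurableSpace Y] {ν : Measure Y} [IsProbabilityMeasure ν]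

/-- shift of the long average in `BM` -/
lemma av_shift_bm (F : Flow ν) {ι : Type} [Fintype ι] (e : ι → ℤ) (f : ι → BM Y) (hf : ∀ j, F.Good (f j))
    (B ε : ℝ) (hε : 0 < ε) : ∃ N0 : ℕ, ∀ N ≥ N0, ∀ u : ℝ, |u| ≤ B * N →
      I ν (babs (av (range (N ^ 2 * 2 ^ N)) (fun i => ∏ j, F.T (e j * (u + (i : ℝ) / 2 ^ N)) (f j)) -
        av (range (N ^ 2 * 2 ^ N)) (fun i => ∏ j, F.T (e j * ((i : ℝ) / 2 ^ N)) (f j)))) ≤ ε := by
  obtain ⟨δ, hδ, H⟩ := prod_unif F f hf (ε / 2) (by positivity)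
  -- a bound for the coefficients
  set E : ℝ := 1 + ∑ j, |(e j : ℝ)| with hE
  have hE0 : 0 ≤ ∑ j, |(e j : ℝ)| := sum_nonneg (fun j _ => abs_nonneg _)
  have hE1 : 0 < E := by rw [hE]; linarith
  have hEj : ∀ j, |(e j : ℝ)| ≤ E := fun j => by
    have := single_le_sum (f := fun j => |(e j : ℝ)|) (fun j _ => abs_nonneg _) (mem_univ j)
    rw [hE]; linarith
  obtain ⟨n1, hn1⟩ := exists_nat_ge (E / δ)
  obtain ⟨n2, hn2⟩ := exists_nat_ge (4 * (|B| + 1) / ε)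
  refine ⟨max (max n1 n2) 1, fun N hN u hu => ?_⟩
  have hN1 : n1 ≤ N := (le_max_left _ _).trans ((le_max_left _ _).trans hN)
  have hN2 : n2 ≤ N := (le_max_right _ _).trans ((le_max_left _ _).trans hN)
  have hN3 : 1 ≤ N := (le_max_right _ _).trans hN
  have hN1' : (n1 : ℝ) ≤ N := by exact_mod_cast hN1
  have hN2' : (n2 : ℝ) ≤ N := by exact_mod_cast hN2
  have hN3' : (1 : ℝ) ≤ N := by exact_mod_cast hN3
  have hNp : (0 : ℝ) < N := by linarith
  have hp : (0 : ℝ) < 2 ^ N := by positivity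
  have h2N : (N : ℝ) ≤ 2 ^ N := by
    have : N < 2 ^ N := Nat.lt_two_pow_self
    have h := this.le
    exact_mod_cast h
  obtain ⟨s, t, hut, ht, hs⟩ := round_mesh N u
  have hne : (range (N ^ 2 * 2 ^ N)).Nonempty := range_ne (Nat.one_le_pow _ _ hN3)
  set G : ℝ → BM Y := fun x => ∏ j, F.T (e j * x) (f j) with hG
  have hGb : ∀ x y, |(G x : Y → ℝ) y| ≤ 1 := fun x y =>
    bm_prod_bdd univ _ (fun j _ => (hf j).bddT _) y
  -- first part: rounding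
  have p1 : ∀ i : ℕ, I ν (babs (G (u + (i : ℝ) / 2 ^ N) - G (((s + i : ℤ) : ℝ) / 2 ^ N))) ≤ ε / 2 := by
    intro i
    refine H _ _ (fun j => ?_)
    have e1 : (e j : ℝ) * (u + (i : ℝ) / 2 ^ N) - e j * (((s + i : ℤ) : ℝ) / 2 ^ N) = e j * t := by
      rw [hut]; push_cast; ring
    rw [e1, abs_mul]
    have h3 : (1 : ℝ) / 2 ^ N ≤ δ / E := by
      rw [div_le_div_iff₀ hp hE1]
      rw [div_le_iff₀ hδ] at hn1
      calc 1 * E = E := one_mul _
        _ ≤ n1 * δ := hn1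
        _ ≤ 2 ^ N * δ := mul_le_mul_of_nonneg_right (hN1'.trans h2N) hδ.le
        _ = δ * 2 ^ N := mul_comm _ _
    calc |(e j : ℝ)| * |t| ≤ E * (δ / E) := mul_le_mul (hEj j) (ht.trans h3) (abs_nonneg _) hE1.le
      _ = δ := by field_simp
  -- second part: integer shift
  have p2 : ∀ y, |((av (range (N ^ 2 * 2 ^ N)) (fun i : ℕ => G (((s + i : ℤ) : ℝ) / 2 ^ N)) -
      av (range (N ^ 2 * 2 ^ N)) (fun i : ℕ => G ((i : ℝ) / 2 ^ N)) : BM Y) : Y → ℝ) y| ≤ ε / 2 := by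
    intro y
    rw [BM.sub_ap, bm_av_ap, bm_av_ap]
    have h3 := abs_av_ishift_le (N ^ 2 * 2 ^ N) s (fun j : ℤ => (G ((j : ℝ) / 2 ^ N) : Y → ℝ) y) 1
      (fun j => hGb _ y)
    have e1 : (fun m : ℕ => (fun j : ℤ => (G ((j : ℝ) / 2 ^ N) : Y → ℝ) y) (m : ℤ)) =
        fun m : ℕ => (G ((m : ℝ) / 2 ^ N) : Y → ℝ) y := by
      funext m; simp only [Int.cast_natCast]
    rw [e1] at h3
    refine h3.trans ?_
    have h4 : |u| ≤ |B| * N := hu.trans (mul_le_mul_of_nonneg_right (le_abs_self B) hNp.le)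
    have h5 : |u| + 1 ≤ (|B| + 1) * N := by nlinarith
    have h6 : |(s : ℝ)| ≤ (|B| + 1) * N * 2 ^ N := hs.trans (mul_le_mul_of_nonneg_right h5 hp.le)
    push_cast
    rw [div_le_iff₀ (by positivity)]
    rw [div_le_iff₀ hε] at hn2
    have h7 : 4 * (|B| + 1) ≤ N * ε := hn2.trans (mul_le_mul_of_nonneg_right hN2' hε.le)
    have h8 : 2 * ((|B| + 1) * N * 2 ^ N) ≤ ε / 2 * (N ^ 2 * 2 ^ N) := by
      have h9 : (4 * (|B| + 1)) * (N * 2 ^ N) ≤ (N * ε) * (N * 2 ^ N) :=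
        mul_le_mul_of_nonneg_right h7 (by positivity)
      nlinarith
    nlinarith
  -- combine
  have e2 : av (range (N ^ 2 * 2 ^ N)) (fun i : ℕ => G (u + (i : ℝ) / 2 ^ N)) -
      av (range (N ^ 2 * 2 ^ N)) (fun i : ℕ => G ((i : ℝ) / 2 ^ N)) =
      av (range (N ^ 2 * 2 ^ N)) (fun i : ℕ => G (u + (i : ℝ) / 2 ^ N) - G (((s + i : ℤ) : ℝ) / 2 ^ N)) +
      (av (range (N ^ 2 * 2 ^ N)) (fun i : ℕ => G (((s + i : ℤ) : ℝ) / 2 ^ N)) -
        av (range (N ^ 2 * 2 ^ N)) (fun i : ℕ => G ((i : ℝ) / 2 ^ N))) := by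
    rw [av_sub]; abel
  show I ν (babs (av (range (N ^ 2 * 2 ^ N)) (fun i : ℕ => G (u + (i : ℝ) / 2 ^ N)) -
      av (range (N ^ 2 * 2 ^ N)) (fun i : ℕ => G ((i : ℝ) / 2 ^ N)))) ≤ ε
  rw [e2]
  have p3 : I ν (av (range (N ^ 2 * 2 ^ N))
      (fun i : ℕ => babs (G (u + (i : ℝ) / 2 ^ N) - G (((s + i : ℤ) : ℝ) / 2 ^ N)))) ≤ ε / 2 := by
    rw [I_av]
    exact av_le hne (fun i _ => p1 i)
  have p4 := I_mono ν (f := babs (av (range (N ^ 2 * 2 ^ N)) (fun i : ℕ => G (u + (i : ℝ) / 2 ^ N) -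
      G (((s + i : ℤ) : ℝ) / 2 ^ N)) +
      (av (range (N ^ 2 * 2 ^ N)) (fun i : ℕ => G (((s + i : ℤ) : ℝ) / 2 ^ N)) -
        av (range (N ^ 2 * 2 ^ N)) (fun i : ℕ => G ((i : ℝ) / 2 ^ N)))))
    (g := av (range (N ^ 2 * 2 ^ N))
      (fun i : ℕ => babs (G (u + (i : ℝ) / 2 ^ N) - G (((s + i : ℤ) : ℝ) / 2 ^ N))) +
      (ε / 2) • (1 : BM Y)) (fun y => by
      rw [babs_ap, BM.add_ap, BM.add_ap, BM.smul_ap, BM.one_ap, mul_one, bm_av_ap, bm_av_ap]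
      refine (abs_add_le _ _).trans (add_le_add ?_ (p2 y))
      exact abs_av_le_av _ _)
  rw [map_add, map_smul, I_one, smul_eq_mul, mul_one] at p4
  linarith

end Pool.Agent.H63.NS.P4
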