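import Pool.Agent.H63.NS.P4Def

/-!
The averages along `n sin n` are Cauchy once they are close to the long averages
(MP_3ea55a_an, module M4, last step).
-/

set_option autoImplicit false

open MeasureTheory Finset Filter Topology
open scoped BigOperators

namespace Pool.Agent.H63.NS.P4

open Pool.Agent.H63.NS

variable {Y : Type} [MeasurableSpace Y] {ν : Measure Y} [IsProbabilityMeasure ν]

/-- the correlation of two products is admissible -/
lemma fc_adm (F : Flow ν) {n : ℕ} (e : Fin n → ℤ) (f : Fin n → BM Y) (hf : ∀ j, F.Good (f j)) :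
    Adm F (fun z => I ν ((∏ j, F.T (e j * z 0) (f j)) * ∏ j, F.T (e j * z 1) (f j))) := by
  have h : ∀ d : ℕ, AdmG F (fun z => ∏ j, F.T (e j * z d) (f j)) := by
    intro d
    have h1 := admG_GG F (fun j => Finsupp.single d (e j)) f hf
    have e1 : (fun z : ℕ → ℝ => ∏ j, F.T (e j * z d) (f j)) = GG F (fun j => Finsupp.single d (e j)) f := by
      funext z
      unfold GG
      exact prod_congr rfl (fun j _ => by rw [ev_single])
    rw [e1]; exact h1
  exact ((h 0).mul (h 1)).adm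

/-- the double average as an iterated average -/
lemma fc_avl (F : Flow ν) {n : ℕ} (e : Fin n → ℤ) (f : Fin n → BM Y) (N N' : ℕ) :
    AvL (fun d => if d = 0 then N else N') (fun d => if d = 0 then N ^ 2 else N' ^ 2) [0, 1]
      (fun z => I ν ((∏ j, F.T (e j * z 0) (f j)) * ∏ j, F.T (e j * z 1) (f j))) 0 =
    I ν (av (range (N ^ 2 * 2 ^ N)) (fun m => ∏ j, F.T (e j * ((m : ℝ) / 2 ^ N)) (f j)) *
      av (range (N' ^ 2 * 2 ^ N')) (fun m => ∏ j, F.T (e j * ((m : ℝ) / 2 ^ N')) (f j))) := by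
  have hR : I ν (av (range (N ^ 2 * 2 ^ N)) (fun m => ∏ j, F.T (e j * ((m : ℝ) / 2 ^ N)) (f j)) *
      av (range (N' ^ 2 * 2 ^ N')) (fun m => ∏ j, F.T (e j * ((m : ℝ) / 2 ^ N')) (f j))) =
      av (range (N ^ 2 * 2 ^ N)) (fun m => av (range (N' ^ 2 * 2 ^ N')) (fun m' =>
        I ν ((∏ j, F.T (e j * ((m : ℝ) / 2 ^ N)) (f j)) *
          ∏ j, F.T (e j * ((m' : ℝ) / 2 ^ N')) (f j)))) := by
    have e1 : av (range (N ^ 2 * 2 ^ N)) (fun m => ∏ j, F.T (e j * ((m : ℝ) / 2 ^ N)) (f j)) *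
        av (range (N' ^ 2 * 2 ^ N')) (fun m => ∏ j, F.T (e j * ((m : ℝ) / 2 ^ N')) (f j)) =
        av (range (N ^ 2 * 2 ^ N)) (fun m => av (range (N' ^ 2 * 2 ^ N')) (fun m' =>
        ((∏ j, F.T (e j * ((m : ℝ) / 2 ^ N)) (f j)) *
          ∏ j, F.T (e j * ((m' : ℝ) / 2 ^ N')) (f j)))) := by
      apply Subtype.ext
      funext y
      rw [BM.mul_ap, bm_av_ap, bm_av_ap, bm_av_ap, ← av_mul_right]
      refine av_congr (fun m _ => ?_)
      rw [bm_av_ap, ← av_mul]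
      exact av_congr (fun m' _ => (BM.mul_ap _ _ _).symm)
    rw [e1, I_av]
    exact av_congr (fun m _ => I_av _ _)
  rw [hR]
  show A1 N (N ^ 2) 0 (A1 N' (N' ^ 2) 1 (fun z => I ν ((∏ j, F.T (e j * z 0) (f j)) *
    ∏ j, F.T (e j * z 1) (f j)))) 0 = _
  unfold A1
  refine av_congr (fun m _ => av_congr (fun m' _ => ?_))
  set z : ℕ → ℝ := Function.update (Function.update 0 0 ((0 : ℕ → ℝ) 0 + (m : ℝ) / 2 ^ N)) 1
    (Function.update (0 : ℕ → ℝ) 0 ((0 : ℕ → ℝ) 0 + (m : ℝ) / 2 ^ N) 1 + (m' : ℝ) / 2 ^ N') with hz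
  have z0 : z 0 = (m : ℝ) / 2 ^ N := by
    rw [hz, Function.update_of_ne zero_ne_one, Function.update_self, Pi.zero_apply, zero_add]
  have z1 : z 1 = (m' : ℝ) / 2 ^ N' := by
    rw [hz, Function.update_self, Function.update_of_ne one_ne_zero, Pi.zero_apply, zero_add]
  show I ν ((∏ j, F.T (e j * z 0) (f j)) * ∏ j, F.T (e j * z 1) (f j)) = _
  rw [z0, z1]

/-- flow_cauchy from pet_main; `hUA` will be `UA.of_adm F` -/
theorem flow_cauchy_of (F : Flow ν) (hUA : ∀ ψ : (ℕ → ℝ) → ℝ, Adm F ψ → UA ψ) {n : ℕ} (e : Fin n → ℤ)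
    (f : Fin n → BM Y) (hf : ∀ j, F.Good (f j))
    (hpet : ∀ ε : ℝ, 0 < ε → ∃ M : ℕ, ∀ N ≥ M,
      I ν ((av (range N) (fun m => ∏ j, F.T (e j * uu m) (f j)) -
        av (range (N ^ 2 * 2 ^ N)) (fun m => ∏ j, F.T (e j * ((m : ℝ) / 2 ^ N)) (f j))) ^ 2) ≤ ε) :
    ∀ ε : ℝ, 0 < ε → ∃ M : ℕ, ∀ N ≥ M, ∀ N' ≥ M,
      I ν ((av (range N) (fun m => ∏ j, F.T (e j * uu m) (f j)) -
        av (range N') (fun m => ∏ j, F.T (e j * uu m) (f j))) ^ 2) ≤ ε := by
  intro ε hε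
  obtain ⟨m, hm⟩ := hUA _ (fc_adm F e f hf) [0, 1] (by decide) 0
  obtain ⟨L, hL⟩ := hm (ε / 36) (by positivity)
  obtain ⟨M, hM⟩ := hpet (ε / 9) (by positivity)
  set A : ℕ → BM Y := fun N => av (range N) (fun m => ∏ j, F.T (e j * uu m) (f j)) with hA
  set W : ℕ → BM Y := fun N => av (range (N ^ 2 * 2 ^ N))
    (fun m => ∏ j, F.T (e j * ((m : ℝ) / 2 ^ N)) (f j)) with hW
  have hWW : ∀ N ≥ max L 1, ∀ N' ≥ max L 1, |I ν (W N * W N') - m| ≤ ε / 36 := by
    intro N hN N' hN'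
    have hNL : L ≤ N := (le_max_left _ _).trans hN
    have hNL' : L ≤ N' := (le_max_left _ _).trans hN'
    have hN1 : 1 ≤ N := (le_max_right _ _).trans hN
    have hN1' : 1 ≤ N' := (le_max_right _ _).trans hN'
    have h2 : N ≤ N ^ 2 := by nlinarith
    have h2' : N' ≤ N' ^ 2 := by nlinarith
    have h := hL (fun d => if d = 0 then N else N') (fun d => if d = 0 then N ^ 2 else N' ^ 2)
      (fun d _ => by
        show L ≤ if d = 0 then N else N'
        split_ifs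
        · exact hNL
        · exact hNL')
      (fun d _ => by
        show L ≤ if d = 0 then N ^ 2 else N' ^ 2
        split_ifs
        · exact hNL.trans h2
        · exact hNL'.trans h2') 0 (fun _ _ => rfl)
    rw [fc_avl] at h
    exact h
  have hW2 : ∀ N ≥ max L 1, ∀ N' ≥ max L 1, I ν ((W N - W N') ^ 2) ≤ ε / 9 := by
    intro N hN N' hN'
    have e1 : (W N - W N') ^ 2 = W N * W N - (2 : ℝ) • (W N * W N') + W N' * W N' := by
      apply Subtype.ext
      funext y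
      simp only [BM.pow_ap, BM.sub_ap, BM.smul_ap, BM.add_ap, BM.mul_ap]
      ring
    rw [e1, map_add, map_sub, map_smul, smul_eq_mul]
    have h1 := abs_le.mp (hWW N hN N hN)
    have h2 := abs_le.mp (hWW N hN N' hN')
    have h3 := abs_le.mp (hWW N' hN' N' hN')
    linarith [h1.2, h2.1, h3.2]
  refine ⟨max M (max L 1), fun N hN N' hN' => ?_⟩
  have hA1 : I ν ((A N - W N) ^ 2) ≤ ε / 9 := hM N ((le_max_left _ _).trans hN)
  have hA2 : I ν ((A N' - W N') ^ 2) ≤ ε / 9 := hM N' ((le_max_left _ _).trans hN')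
  have hA3 : I ν ((W N - W N') ^ 2) ≤ ε / 9 :=
    hW2 N ((le_max_right _ _).trans hN) N' ((le_max_right _ _).trans hN')
  have h4 : I ν ((A N - A N') ^ 2) ≤
      I ν ((3 : ℝ) • ((A N - W N) ^ 2 + (W N - W N') ^ 2 + (A N' - W N') ^ 2)) := by
    refine I_mono ν (fun y => ?_)
    simp only [BM.pow_ap, BM.sub_ap, BM.smul_ap, BM.add_ap]
    set a := (A N : Y → ℝ) y
    set a' := (A N' : Y → ℝ) y
    set w := (W N : Y → ℝ) y
    set w' := (W N' : Y → ℝ) y
    nlinarith [sq_nonneg ((a - w) - (w - w')), sq_nonneg ((a - w) + (a' - w')),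
      sq_nonneg ((w - w') + (a' - w'))]
  rw [map_smul, map_add, map_add, smul_eq_mul] at h4
  show I ν ((A N - A N') ^ 2) ≤ ε
  linarith

end Pool.Agent.H63.NS.P4
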