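import Pool.Agent.H63.NS.Av

/-!
Calculus of uniform means (module M2b of the proof of MP_3ea55a_an): the operators `A1` and `AvL`,
the property `UA` (all uniform means exist), the uniform mean `mn`, iterated means, shears,
translations, finite averages, monotonicity, Cauchy-Schwarz.
-/

set_option autoImplicit false

open MeasureTheory Finset Filter Topology
open scoped BigOperators

namespace Pool.Agent.H63.NS

/-! ### The operator A1 -/

lemma range_ne {K k : ℕ} (h : 1 ≤ K) : (range (K * 2 ^ k)).Nonempty := by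
  rw [nonempty_range_iff]
  positivity

lemma A1_add (k K d : ℕ) (ψ χ : (ℕ → ℝ) → ℝ) :
    A1 k K d (fun z => ψ z + χ z) = fun z => A1 k K d ψ z + A1 k K d χ z := by
  funext z
  exact av_add _ _ _

lemma A1_mul (k K d : ℕ) (c : ℝ) (ψ : (ℕ → ℝ) → ℝ) :
    A1 k K d (fun z => c * ψ z) = fun z => c * A1 k K d ψ z := by
  funext z
  exact av_mul _ _ _

lemma A1_const {k K d : ℕ} (hK : 1 ≤ K) (c : ℝ) : A1 k K d (fun _ => c) = fun _ => c := by
  funext z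
  exact av_const (range_ne hK) c

lemma A1_mono (k K d : ℕ) {ψ χ : (ℕ → ℝ) → ℝ} (h : ∀ z, ψ z ≤ χ z) (z : ℕ → ℝ) :
    A1 k K d ψ z ≤ A1 k K d χ z := av_mono (fun _ _ => h _)

lemma A1_sq (k K d : ℕ) (ψ : (ℕ → ℝ) → ℝ) (z : ℕ → ℝ) :
    (A1 k K d ψ z) ^ 2 ≤ A1 k K d (fun z => ψ z ^ 2) z := av_sq_le _ _

lemma A1_comm (k K d k' K' d' : ℕ) (ψ : (ℕ → ℝ) → ℝ) (h : d ≠ d') :
    A1 k K d (A1 k' K' d' ψ) = A1 k' K' d' (A1 k K d ψ) := by
  funext z
  unfold A1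
  rw [av_comm]
  refine av_congr (fun i _ => av_congr (fun j _ => ?_))
  rw [Function.update_of_ne h.symm, Function.update_of_ne h, Function.update_comm h]

lemma A1_tendsto (k K d : ℕ) {ψ : ℕ → (ℕ → ℝ) → ℝ} {φ : (ℕ → ℝ) → ℝ}
    (h : ∀ z, Tendsto (fun n => ψ n z) atTop (𝓝 (φ z))) (z : ℕ → ℝ) :
    Tendsto (fun n => A1 k K d (ψ n) z) atTop (𝓝 (A1 k K d φ z)) := by
  unfold A1 av
  exact (tendsto_finsetSum _ (fun i _ => h _)).const_smul _

/-! ### The operator AvL -/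

lemma AvL_nil (k K : ℕ → ℕ) (ψ : (ℕ → ℝ) → ℝ) : AvL k K [] ψ = ψ := rfl

lemma AvL_cons (k K : ℕ → ℕ) (d : ℕ) (l : List ℕ) (ψ : (ℕ → ℝ) → ℝ) :
    AvL k K (d :: l) ψ = A1 (k d) (K d) d (AvL k K l ψ) := rfl

lemma AvL_append (k K : ℕ → ℕ) (l l' : List ℕ) (ψ : (ℕ → ℝ) → ℝ) :
    AvL k K (l ++ l') ψ = AvL k K l (AvL k K l' ψ) := by
  induction l with
  | nil => rfl
  | cons d l ih => rw [List.cons_append, AvL_cons, AvL_cons, ih]

lemma AvL_congr {k K k' K' : ℕ → ℕ} {l : List ℕ} (hk : ∀ d ∈ l, k d = k' d)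
    (hK : ∀ d ∈ l, K d = K' d) (ψ : (ℕ → ℝ) → ℝ) : AvL k K l ψ = AvL k' K' l ψ := by
  induction l with
  | nil => rfl
  | cons d l ih =>
    rw [AvL_cons, AvL_cons, ih (fun e he => hk e (List.mem_cons_of_mem _ he))
      (fun e he => hK e (List.mem_cons_of_mem _ he)), hk d List.mem_cons_self,
      hK d List.mem_cons_self]

lemma AvL_perm (k K : ℕ → ℕ) {l l' : List ℕ} (h : l.Perm l') (ψ : (ℕ → ℝ) → ℝ) :
    AvL k K l ψ = AvL k K l' ψ := by
  induction h with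
  | nil => rfl
  | cons x _ ih => rw [AvL_cons, AvL_cons, ih]
  | swap x y l =>
    rw [AvL_cons, AvL_cons, AvL_cons, AvL_cons]
    by_cases h : y = x
    · subst h; rfl
    · exact A1_comm _ _ _ _ _ _ _ h
  | trans _ _ ih1 ih2 => exact ih1.trans ih2

lemma AvL_add (k K : ℕ → ℕ) (l : List ℕ) (ψ χ : (ℕ → ℝ) → ℝ) :
    AvL k K l (fun z => ψ z + χ z) = fun z => AvL k K l ψ z + AvL k K l χ z := by
  induction l with
  | nil => rfl
  | cons d l ih => rw [AvL_cons, ih, A1_add]; rfl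

lemma AvL_mul (k K : ℕ → ℕ) (l : List ℕ) (c : ℝ) (ψ : (ℕ → ℝ) → ℝ) :
    AvL k K l (fun z => c * ψ z) = fun z => c * AvL k K l ψ z := by
  induction l with
  | nil => rfl
  | cons d l ih => rw [AvL_cons, ih, A1_mul]; rfl

lemma AvL_sub (k K : ℕ → ℕ) (l : List ℕ) (ψ χ : (ℕ → ℝ) → ℝ) :
    AvL k K l (fun z => ψ z - χ z) = fun z => AvL k K l ψ z - AvL k K l χ z := by
  have e : (fun z => ψ z - χ z) = fun z => ψ z + (-1) * χ z := by funext z; ring
  rw [e, AvL_add k K l ψ (fun z => (-1) * χ z), AvL_mul]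
  funext z
  ring

lemma AvL_const (k K : ℕ → ℕ) {l : List ℕ} (hK : ∀ d ∈ l, 1 ≤ K d) (c : ℝ) :
    AvL k K l (fun _ => c) = fun _ => c := by
  induction l with
  | nil => rfl
  | cons d l ih =>
    rw [AvL_cons, ih (fun e he => hK e (List.mem_cons_of_mem _ he)),
      A1_const (hK d List.mem_cons_self)]

lemma AvL_mono (k K : ℕ → ℕ) (l : List ℕ) {ψ χ : (ℕ → ℝ) → ℝ} (h : ∀ z, ψ z ≤ χ z) (z : ℕ → ℝ) :
    AvL k K l ψ z ≤ AvL k K l χ z := by
  induction l generalizing z with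
  | nil => exact h z
  | cons d l ih => exact A1_mono _ _ _ ih z

lemma AvL_sq (k K : ℕ → ℕ) (l : List ℕ) (ψ : (ℕ → ℝ) → ℝ) (z : ℕ → ℝ) :
    (AvL k K l ψ z) ^ 2 ≤ AvL k K l (fun z => ψ z ^ 2) z := by
  induction l generalizing z with
  | nil => exact le_rfl
  | cons d l ih => exact (A1_sq _ _ _ _ z).trans (A1_mono _ _ _ ih z)

lemma AvL_tendsto (k K : ℕ → ℕ) (l : List ℕ) {ψ : ℕ → (ℕ → ℝ) → ℝ} {φ : (ℕ → ℝ) → ℝ}
    (h : ∀ z, Tendsto (fun n => ψ n z) atTop (𝓝 (φ z))) (z : ℕ → ℝ) :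
    Tendsto (fun n => AvL k K l (ψ n) z) atTop (𝓝 (AvL k K l φ z)) := by
  induction l generalizing z with
  | nil => exact h z
  | cons d l ih => exact A1_tendsto _ _ _ ih z

/-- `φ` depends only on the coordinates outside `l` -/
def Off (l : List ℕ) (φ : (ℕ → ℝ) → ℝ) : Prop :=
  ∀ z z' : ℕ → ℝ, (∀ d, d ∉ l → z d = z' d) → φ z = φ z'

lemma AvL_off {l : List ℕ} {φ : (ℕ → ℝ) → ℝ} (h : Off l φ) (k K : ℕ → ℕ) (l' : List ℕ) :
    Off l (AvL k K l' φ) := by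
  induction l' with
  | nil => exact h
  | cons d l' ih =>
    intro z z' hz
    rw [AvL_cons]
    unfold A1
    refine av_congr (fun i _ => ih _ _ (fun e he => ?_))
    by_cases hed : e = d
    · subst hed
      rw [Function.update_self, Function.update_self, hz e he]
    · rw [Function.update_of_ne hed, Function.update_of_ne hed, hz e he]

lemma A1_off {l : List ℕ} {φ : (ℕ → ℝ) → ℝ} (h : Off l φ) {k K d : ℕ} (hd : d ∈ l) (hK : 1 ≤ K) :
    A1 k K d φ = φ := by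
  funext z
  unfold A1
  have e : ∀ i ∈ range (K * 2 ^ k), φ (Function.update z d (z d + (i : ℝ) / 2 ^ k)) = φ z := by
    intro i _
    refine h _ _ (fun e he => ?_)
    rw [Function.update_of_ne]
    rintro rfl
    exact he hd
  rw [av_congr e, av_const (range_ne hK)]

lemma AvL_filter {l : List ℕ} {φ : (ℕ → ℝ) → ℝ} (h : Off l φ) (k K : ℕ → ℕ) {l' : List ℕ}
    (hK : ∀ d ∈ l', 1 ≤ K d) :
    AvL k K l' φ = AvL k K (l'.filter (fun d => decide (d ∉ l))) φ := by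
  induction l' with
  | nil => rfl
  | cons d l' ih =>
    have ih' := ih (fun e he => hK e (List.mem_cons_of_mem _ he))
    by_cases hd : d ∈ l
    · rw [List.filter_cons_of_neg (by simpa using hd), AvL_cons, ih',
        A1_off (AvL_off h k K _) hd (hK d List.mem_cons_self)]
    · rw [List.filter_cons_of_pos (by simpa using hd), AvL_cons, AvL_cons, ih']

/-- averages of a translated function -/
lemma AvL_tr (k K : ℕ → ℕ) (l : List ℕ) (ψ : (ℕ → ℝ) → ℝ) (v z : ℕ → ℝ) :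
    AvL k K l (fun z => ψ (fun d => z d + v d)) z = AvL k K l ψ (fun d => z d + v d) := by
  induction l generalizing z with
  | nil => rfl
  | cons d l ih =>
    rw [AvL_cons, AvL_cons]
    unfold A1
    refine av_congr (fun i _ => ?_)
    rw [ih]
    refine congrArg _ ?_
    funext e
    by_cases hed : e = d
    · subst hed
      rw [Function.update_self, Function.update_self]
      ring
    · rw [Function.update_of_ne hed, Function.update_of_ne hed]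

/-! ### Uniform means at a point -/

lemma umat_tendsto {l : List ℕ} {ψ : (ℕ → ℝ) → ℝ} {z : ℕ → ℝ} {m : ℝ} (h : UMat l ψ z m) :
    Tendsto (fun n : ℕ => AvL (fun _ => n) (fun _ => n) l ψ z) atTop (𝓝 m) := by
  rw [Metric.tendsto_atTop]
  intro ε hε
  obtain ⟨L, hL⟩ := h (ε / 2) (half_pos hε)
  refine ⟨L, fun n hn => ?_⟩
  rw [Real.dist_eq]
  exact lt_of_le_of_lt (hL _ _ (fun _ _ => hn) (fun _ _ => hn) z (fun _ _ => rfl)) (half_lt_self hε)

lemma umat_unique {l : List ℕ} {ψ : (ℕ → ℝ) → ℝ} {z : ℕ → ℝ} {m m' : ℝ} (h : UMat l ψ z m)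
    (h' : UMat l ψ z m') : m = m' :=
  tendsto_nhds_unique (umat_tendsto h) (umat_tendsto h')

lemma umat_off {l : List ℕ} {ψ : (ℕ → ℝ) → ℝ} {z z' : ℕ → ℝ} (h : ∀ d, d ∉ l → z' d = z d) {m : ℝ}
    (hm : UMat l ψ z m) : UMat l ψ z' m := by
  intro ε hε
  obtain ⟨L, hL⟩ := hm ε hε
  exact ⟨L, fun k K hk hK z'' hz => hL k K hk hK z'' (fun d hd => (hz d hd).trans (h d hd))⟩

lemma umat_perm {l l' : List ℕ} {ψ : (ℕ → ℝ) → ℝ} {z : ℕ → ℝ} {m : ℝ} (hp : l.Perm l')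
    (hm : UMat l ψ z m) : UMat l' ψ z m := by
  intro ε hε
  obtain ⟨L, hL⟩ := hm ε hε
  refine ⟨L, fun k K hk hK z' hz => ?_⟩
  rw [← AvL_perm k K hp]
  exact hL k K (fun d hd => hk d (hp.mem_iff.1 hd)) (fun d hd => hK d (hp.mem_iff.1 hd)) z'
    (fun d hd => hz d (fun h => hd (hp.mem_iff.2 h)))

lemma umat_add {l : List ℕ} {ψ χ : (ℕ → ℝ) → ℝ} {z : ℕ → ℝ} {m m' : ℝ} (h : UMat l ψ z m)
    (h' : UMat l χ z m') : UMat l (fun z => ψ z + χ z) z (m + m') := by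
  intro ε hε
  obtain ⟨L, hL⟩ := h (ε / 2) (half_pos hε)
  obtain ⟨L', hL'⟩ := h' (ε / 2) (half_pos hε)
  refine ⟨max L L', fun k K hk hK z' hz => ?_⟩
  rw [AvL_add]
  have h1 := hL k K (fun d hd => (le_max_left _ _).trans (hk d hd))
    (fun d hd => (le_max_left _ _).trans (hK d hd)) z' hz
  have h2 := hL' k K (fun d hd => (le_max_right _ _).trans (hk d hd))
    (fun d hd => (le_max_right _ _).trans (hK d hd)) z' hz
  have e : AvL k K l ψ z' + AvL k K l χ z' - (m + m') =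
    (AvL k K l ψ z' - m) + (AvL k K l χ z' - m') := by ring
  rw [e]
  exact (abs_add_le _ _).trans (by linarith)

lemma umat_mul {l : List ℕ} {ψ : (ℕ → ℝ) → ℝ} {z : ℕ → ℝ} {m : ℝ} (c : ℝ) (h : UMat l ψ z m) :
    UMat l (fun z => c * ψ z) z (c * m) := by
  intro ε hε
  obtain ⟨L, hL⟩ := h (ε / (|c| + 1)) (by positivity)
  refine ⟨L, fun k K hk hK z' hz => ?_⟩
  rw [AvL_mul]
  have h1 := hL k K hk hK z' hz
  have e : c * AvL k K l ψ z' - c * m = c * (AvL k K l ψ z' - m) := by ring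
  rw [e, abs_mul]
  calc |c| * |AvL k K l ψ z' - m| ≤ (|c| + 1) * (ε / (|c| + 1)) :=
        mul_le_mul (by linarith) h1 (abs_nonneg _) (by positivity)
    _ = ε := by field_simp

lemma umat_const (l : List ℕ) (c : ℝ) (z : ℕ → ℝ) : UMat l (fun _ => c) z c := by
  intro ε hε
  refine ⟨1, fun k K _ hK z' _ => ?_⟩
  rw [AvL_const k K hK, sub_self, abs_zero]
  exact hε.le

lemma umat_mono {l : List ℕ} {ψ χ : (ℕ → ℝ) → ℝ} {z : ℕ → ℝ} {m m' : ℝ} (h : UMat l ψ z m)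
    (h' : UMat l χ z m') (hle : ∀ z, ψ z ≤ χ z) : m ≤ m' :=
  le_of_tendsto_of_tendsto' (umat_tendsto h) (umat_tendsto h') (fun _ => AvL_mono _ _ _ hle _)

lemma umat_sq_le {l : List ℕ} {ψ χ : (ℕ → ℝ) → ℝ} {z : ℕ → ℝ} {m m' : ℝ} (h : UMat l ψ z m)
    (h' : UMat l χ z m') (hle : ∀ z, ψ z ^ 2 ≤ χ z) : m ^ 2 ≤ m' :=
  le_of_tendsto_of_tendsto' ((umat_tendsto h).pow 2) (umat_tendsto h')
    (fun _ => (AvL_sq _ _ _ _ _).trans (AvL_mono _ _ _ hle _))

lemma umat_tr {l : List ℕ} {ψ : (ℕ → ℝ) → ℝ} {z : ℕ → ℝ} {m : ℝ} (v : ℕ → ℝ)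
    (h : UMat l ψ (fun d => z d + v d) m) : UMat l (fun z => ψ (fun d => z d + v d)) z m := by
  intro ε hε
  obtain ⟨L, hL⟩ := h ε hε
  refine ⟨L, fun k K hk hK z' hz => ?_⟩
  rw [AvL_tr]
  exact hL k K hk hK _ (fun d hd => by rw [hz d hd])

/-- iterated uniform means -/
lemma umat_append {l l' : List ℕ} {ψ φ : (ℕ → ℝ) → ℝ} (hφ : ∀ z, UMat l' ψ z (φ z))
    (hd : ∀ d ∈ l, d ∉ l') {z : ℕ → ℝ} {m : ℝ} (h : UMat (l ++ l') ψ z m) : UMat l φ z m := by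
  intro ε hε
  obtain ⟨L, hL⟩ := h ε hε
  refine ⟨L, fun k K hk hK z' hz' => ?_⟩
  have h1 : Tendsto (fun n : ℕ => AvL k K l (AvL (fun _ => n) (fun _ => n) l' ψ) z') atTop
      (𝓝 (AvL k K l φ z')) := AvL_tendsto k K l (fun z => umat_tendsto (hφ z)) z'
  refine le_of_tendsto (h1.sub_const m).abs (eventually_atTop.2 ⟨L, fun n hn => ?_⟩)
  have e : AvL k K l (AvL (fun _ => n) (fun _ => n) l' ψ) =
      AvL (fun d => if d ∈ l' then n else k d) (fun d => if d ∈ l' then n else K d) (l ++ l') ψ := by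
    rw [AvL_append, AvL_congr (l := l') (k := fun d => if d ∈ l' then n else k d) (k' := fun _ => n)
      (K := fun d => if d ∈ l' then n else K d) (K' := fun _ => n)
      (fun d hd => if_pos hd) (fun d hd => if_pos hd),
      AvL_congr (l := l) (k := fun d => if d ∈ l' then n else k d) (k' := k)
      (K := fun d => if d ∈ l' then n else K d) (K' := K)
      (fun d h => if_neg (hd d h)) (fun d h => if_neg (hd d h))]
  rw [e]
  refine hL _ _ (fun d h => ?_) (fun d h => ?_) z' (fun d h => hz' d (fun h' => h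
    (List.mem_append_left _ h')))
  · by_cases h' : d ∈ l'
    · simp only [if_pos h']; exact hn
    · simp only [if_neg h']
      exact hk d ((List.mem_append.1 h).resolve_right h')
  · by_cases h' : d ∈ l'
    · simp only [if_pos h']; exact hn
    · simp only [if_neg h']
      exact hK d ((List.mem_append.1 h).resolve_right h')

lemma umat_of_filter {l l' : List ℕ} {φ : (ℕ → ℝ) → ℝ} {z : ℕ → ℝ} {m : ℝ} (h : Off l φ)
    (hm : UMat (l'.filter (fun d => decide (d ∉ l))) φ z m) : UMat l' φ z m := by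
  intro ε hε
  obtain ⟨L, hL⟩ := hm ε hε
  refine ⟨max L 1, fun k K hk hK z' hz' => ?_⟩
  rw [AvL_filter h k K (fun d hd => (le_max_right _ _).trans (hK d hd)),
    AvL_off h k K _ z' (fun d => if d ∈ l then z d else z' d) (fun d hd => by simp only [if_neg hd])]
  refine hL k K (fun d hd => (le_max_left _ _).trans (hk d (List.mem_of_mem_filter hd)))
    (fun d hd => (le_max_left _ _).trans (hK d (List.mem_of_mem_filter hd))) _ (fun d hd => ?_)
  by_cases hdl : d ∈ l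
  · simp only [if_pos hdl]
  · simp only [if_neg hdl]
    refine hz' d (fun hd' => hd ?_)
    rw [List.mem_filter]
    exact ⟨hd', by simpa using hdl⟩

/-! ### Uniform means -/

/-- all uniform means exist -/
def UA (ψ : (ℕ → ℝ) → ℝ) : Prop := ∀ l : List ℕ, l.Nodup → ∀ z, ∃ m : ℝ, UMat l ψ z m

open Classical in
/-- the uniform mean over the coordinates in `l` -/
noncomputable def mn (l : List ℕ) (ψ : (ℕ → ℝ) → ℝ) (z : ℕ → ℝ) : ℝ :=
  if h : ∃ m : ℝ, UMat l ψ z m then h.choose else 0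

/-- `ψ` does not depend on the coordinate `d` -/
def Indep (d : ℕ) (ψ : (ℕ → ℝ) → ℝ) : Prop := ∀ z x, ψ (Function.update z d x) = ψ z

/-- shear: add `a z` to the coordinate `d` -/
noncomputable def shr (d : ℕ) (a : (ℕ → ℝ) → ℝ) (z : ℕ → ℝ) : ℕ → ℝ := Function.update z d (z d + a z)

lemma mn_eq {l : List ℕ} {ψ : (ℕ → ℝ) → ℝ} {z : ℕ → ℝ} {m : ℝ} (h : UMat l ψ z m) :
    mn l ψ z = m := by
  have hex : ∃ m : ℝ, UMat l ψ z m := ⟨m, h⟩
  unfold mn
  rw [dif_pos hex]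
  exact umat_unique hex.choose_spec h

lemma mn_spec {ψ : (ℕ → ℝ) → ℝ} (h : UA ψ) {l : List ℕ} (hl : l.Nodup) (z : ℕ → ℝ) :
    UMat l ψ z (mn l ψ z) := by
  obtain ⟨m, hm⟩ := h l hl z
  rw [mn_eq hm]
  exact hm

/-- the uniform mean as a limit of averages -/
lemma mn_tendsto {ψ : (ℕ → ℝ) → ℝ} (h : UA ψ) {l : List ℕ} (hl : l.Nodup) (z : ℕ → ℝ) :
    Tendsto (fun n : ℕ => AvL (fun _ => n) (fun _ => n) l ψ z) atTop (𝓝 (mn l ψ z)) :=
  umat_tendsto (mn_spec h hl z)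

lemma mn_nil (ψ : (ℕ → ℝ) → ℝ) : mn [] ψ = ψ := by
  funext z
  refine mn_eq (fun ε hε => ⟨0, fun k K _ _ z' hz' => ?_⟩)
  have e : z' = z := funext (fun d => hz' d List.not_mem_nil)
  rw [AvL_nil, e, sub_self, abs_zero]
  exact hε.le

lemma mn_off {ψ : (ℕ → ℝ) → ℝ} {l : List ℕ} {z z' : ℕ → ℝ} (h : ∀ d, d ∉ l → z' d = z d) :
    mn l ψ z' = mn l ψ z := by
  by_cases hex : ∃ m : ℝ, UMat l ψ z m
  · obtain ⟨m, hm⟩ := hex
    rw [mn_eq hm, mn_eq (umat_off h hm)]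
  · have hex' : ¬ ∃ m : ℝ, UMat l ψ z' m := by
      rintro ⟨m, hm⟩
      exact hex ⟨m, umat_off (fun d hd => (h d hd).symm) hm⟩
    unfold mn
    rw [dif_neg hex, dif_neg hex']

lemma off_mn (l : List ℕ) (ψ : (ℕ → ℝ) → ℝ) : Off l (mn l ψ) :=
  fun _ _ h => mn_off h

lemma UA.mn {ψ : (ℕ → ℝ) → ℝ} (h : UA ψ) {l : List ℕ} (hl : l.Nodup) : UA (mn l ψ) := by
  intro l' hl' z
  have hd : ∀ d ∈ l'.filter (fun d => decide (d ∉ l)), d ∉ l := by
    intro d hd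
    simpa using (List.mem_filter.1 hd).2
  have hn : (l'.filter (fun d => decide (d ∉ l)) ++ l).Nodup :=
    List.Nodup.append (hl'.filter _) hl (fun d h1 h2 => hd d h1 h2)
  obtain ⟨m, hm⟩ := h _ hn z
  exact ⟨m, umat_of_filter (off_mn l ψ) (umat_append (fun z => mn_spec h hl z) hd hm)⟩

lemma mn_append {ψ : (ℕ → ℝ) → ℝ} (h : UA ψ) {l l' : List ℕ} (hl : (l ++ l').Nodup) (z : ℕ → ℝ) :
    mn (l ++ l') ψ z = mn l (mn l' ψ) z := by
  have hl' : l'.Nodup := (List.nodup_append.1 hl).2.1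
  refine (mn_eq (umat_append (fun z => mn_spec h hl' z) (fun d h1 h2 => ?_) (mn_spec h hl z))).symm
  exact (List.nodup_append.1 hl).2.2 d h1 d h2 rfl

lemma mn_cons {ψ : (ℕ → ℝ) → ℝ} (h : UA ψ) {d : ℕ} {l : List ℕ} (hl : (d :: l).Nodup) (z : ℕ → ℝ) :
    mn (d :: l) ψ z = mn [d] (mn l ψ) z :=
  mn_append (l := [d]) (l' := l) h hl z

lemma mn_perm {ψ : (ℕ → ℝ) → ℝ} {l l' : List ℕ} (_hl : l.Nodup) (hp : l.Perm l') (z : ℕ → ℝ) :
    mn l ψ z = mn l' ψ z := by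
  by_cases hex : ∃ m : ℝ, UMat l ψ z m
  · obtain ⟨m, hm⟩ := hex
    rw [mn_eq hm, mn_eq (umat_perm hp hm)]
  · have hex' : ¬ ∃ m : ℝ, UMat l' ψ z m := by
      rintro ⟨m, hm⟩
      exact hex ⟨m, umat_perm hp.symm hm⟩
    unfold mn
    rw [dif_neg hex, dif_neg hex']

/-- take one coordinate innermost -/
lemma mn_last {ψ : (ℕ → ℝ) → ℝ} (h : UA ψ) {l : List ℕ} (hl : l.Nodup) {d : ℕ} (hd : d ∈ l)
    (z : ℕ → ℝ) : mn l ψ z = mn (l.erase d) (mn [d] ψ) z := by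
  have hp : l.Perm (l.erase d ++ [d]) :=
    (List.perm_cons_erase hd).trans (List.perm_append_singleton d _).symm
  rw [mn_perm hl hp, mn_append h (hp.nodup_iff.1 hl)]

/-! ### Shears and translations -/

lemma umat_shr {ψ : (ℕ → ℝ) → ℝ} {a : (ℕ → ℝ) → ℝ} {d : ℕ} (ha : Indep d a) {z : ℕ → ℝ} {m : ℝ}
    (hm : UMat [d] ψ z m) : UMat [d] (fun z => ψ (shr d a z)) z m := by
  intro ε hε
  obtain ⟨L, hL⟩ := hm ε hε
  refine ⟨L, fun k K hk hK z' hz' => ?_⟩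
  have e : AvL k K [d] (fun z => ψ (shr d a z)) z' = AvL k K [d] ψ (shr d a z') := by
    rw [AvL_cons, AvL_cons, AvL_nil, AvL_nil]
    unfold A1
    refine av_congr (fun i _ => ?_)
    unfold shr
    beta_reduce
    rw [ha, Function.update_self, Function.update_self, Function.update_idem,
      Function.update_idem, add_right_comm]
  rw [e]
  refine hL k K hk hK _ (fun e he => ?_)
  unfold shr
  rw [Function.update_of_ne (by simpa using he)]
  exact hz' e he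

lemma mn_shr {ψ : (ℕ → ℝ) → ℝ} {a : (ℕ → ℝ) → ℝ} {d : ℕ} (h : UA ψ)
    (h' : UA (fun z => ψ (shr d a z))) (ha : Indep d a) {l : List ℕ} (hl : l.Nodup) (hd : d ∈ l)
    (z : ℕ → ℝ) : mn l (fun z => ψ (shr d a z)) z = mn l ψ z := by
  rw [mn_last h' hl hd, mn_last h hl hd]
  have e : mn [d] (fun z => ψ (shr d a z)) = mn [d] ψ := by
    funext z'
    exact mn_eq (umat_shr ha (mn_spec h (List.nodup_singleton d) z'))
  rw [e]

lemma UA.tr {ψ : (ℕ → ℝ) → ℝ} (h : UA ψ) (v : ℕ → ℝ) : UA (fun z => ψ (fun d => z d + v d)) := by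
  intro l hl z
  obtain ⟨m, hm⟩ := h l hl (fun d => z d + v d)
  exact ⟨m, umat_tr v hm⟩

lemma mn_tr {ψ : (ℕ → ℝ) → ℝ} (h : UA ψ) {l : List ℕ} (hl : l.Nodup) (v z : ℕ → ℝ) :
    mn l (fun z => ψ (fun d => z d + v d)) z = mn l ψ (fun d => z d + v d) :=
  mn_eq (umat_tr v (mn_spec h hl _))

lemma mn_tr_mem {ψ : (ℕ → ℝ) → ℝ} (h : UA ψ) {l : List ℕ} (hl : l.Nodup) {v : ℕ → ℝ}
    (hv : ∀ d, d ∉ l → v d = 0) (z : ℕ → ℝ) :
    mn l (fun z => ψ (fun d => z d + v d)) z = mn l ψ z := by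
  rw [mn_tr h hl]
  exact mn_off (fun d hd => by rw [hv d hd, add_zero])

lemma update_add_eq (z : ℕ → ℝ) (d : ℕ) (t : ℝ) :
    Function.update z d (z d + t) = fun e => z e + (Pi.single d t : ℕ → ℝ) e := by
  funext e
  by_cases h : e = d
  · subst h
    rw [Function.update_self, Pi.single_eq_same]
  · rw [Function.update_of_ne h, Pi.single_eq_of_ne h, add_zero]

lemma UA.ad {ψ : (ℕ → ℝ) → ℝ} (h : UA ψ) (d : ℕ) (t : ℝ) :
    UA (fun z => ψ (Function.update z d (z d + t))) := by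
  simp only [update_add_eq]
  exact h.tr _

lemma mn_ad {ψ : (ℕ → ℝ) → ℝ} (h : UA ψ) {l : List ℕ} (hl : l.Nodup) (d : ℕ) (t : ℝ) (z : ℕ → ℝ) :
    mn l (fun z => ψ (Function.update z d (z d + t))) z =
      mn l ψ (Function.update z d (z d + t)) := by
  simp only [update_add_eq]
  exact mn_tr h hl _ z

lemma mn_ad_mem {ψ : (ℕ → ℝ) → ℝ} (h : UA ψ) {l : List ℕ} (hl : l.Nodup) {d : ℕ} (hd : d ∈ l)
    (t : ℝ) (z : ℕ → ℝ) : mn l (fun z => ψ (Function.update z d (z d + t))) z = mn l ψ z := by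
  rw [mn_ad h hl]
  refine mn_off (fun e he => ?_)
  rw [Function.update_of_ne]
  rintro rfl
  exact he hd

/-! ### Functions which do not depend on a coordinate -/

lemma Indep.off {d : ℕ} {ψ : (ℕ → ℝ) → ℝ} (h : Indep d ψ) : Off [d] ψ := by
  intro z z' hz
  have e : z = Function.update z' d (z d) := by
    funext e
    by_cases he : e = d
    · subst he; rw [Function.update_self]
    · rw [Function.update_of_ne he]; exact hz e (by simpa using he)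
  rw [e, h]

lemma Off.indep {d : ℕ} {ψ : (ℕ → ℝ) → ℝ} {l : List ℕ} (h : Off l ψ) (hd : d ∈ l) : Indep d ψ := by
  intro z x
  refine h _ _ (fun e he => ?_)
  rw [Function.update_of_ne]
  rintro rfl
  exact he hd

lemma umat_drop {ψ : (ℕ → ℝ) → ℝ} {d : ℕ} (hd : Indep d ψ) {l : List ℕ} (hl : d ∉ l) {z : ℕ → ℝ}
    {m : ℝ} (hm : UMat l ψ z m) : UMat (d :: l) ψ z m := by
  refine umat_of_filter (l := [d]) hd.off ?_
  have e : (d :: l).filter (fun e => decide (e ∉ [d])) = l := by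
    rw [List.filter_cons_of_neg (by simp), List.filter_eq_self]
    intro e he
    have : e ≠ d := by rintro rfl; exact hl he
    simpa using this
  rw [e]
  exact hm

lemma mn_drop {ψ : (ℕ → ℝ) → ℝ} {d : ℕ} (h : UA ψ) (hd : Indep d ψ) {l : List ℕ}
    (hl : (d :: l).Nodup) (z : ℕ → ℝ) : mn (d :: l) ψ z = mn l ψ z :=
  mn_eq (umat_drop hd (List.nodup_cons.1 hl).1 (mn_spec h (List.nodup_cons.1 hl).2 z))

/-- the mean over `l` of a function which does not depend on `d` does not depend on `d` -/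
lemma Indep.mn {ψ : (ℕ → ℝ) → ℝ} {d : ℕ} (h : UA ψ) (hd : Indep d ψ) {l : List ℕ} (hl : l.Nodup) :
    Indep d (mn l ψ) := by
  intro z x
  by_cases hdl : d ∈ l
  · exact (off_mn l ψ).indep hdl z x
  · have hn : (d :: l).Nodup := List.nodup_cons.2 ⟨hdl, hl⟩
    rw [← mn_drop h hd hn, ← mn_drop h hd hn]
    exact (off_mn (d :: l) ψ).indep List.mem_cons_self z x

/-! ### Algebra of uniform means -/

lemma UA.add {ψ χ : (ℕ → ℝ) → ℝ} (h : UA ψ) (h' : UA χ) : UA (fun z => ψ z + χ z) := by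
  intro l hl z
  exact ⟨_, umat_add (mn_spec h hl z) (mn_spec h' hl z)⟩

lemma UA.smul {ψ : (ℕ → ℝ) → ℝ} (c : ℝ) (h : UA ψ) : UA (fun z => c * ψ z) := by
  intro l hl z
  exact ⟨_, umat_mul c (mn_spec h hl z)⟩

lemma UA.sub {ψ χ : (ℕ → ℝ) → ℝ} (h : UA ψ) (h' : UA χ) : UA (fun z => ψ z - χ z) := by
  have e : (fun z => ψ z - χ z) = fun z => ψ z + (-1) * χ z := by funext z; ring
  rw [e]
  exact h.add (h'.smul (-1))

lemma UA.neg {ψ : (ℕ → ℝ) → ℝ} (h : UA ψ) : UA (fun z => -ψ z) := by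
  have e : (fun z => -ψ z) = fun z => (-1) * ψ z := by funext z; ring
  rw [e]
  exact h.smul (-1)

lemma UA.const (c : ℝ) : UA (fun _ => c) := fun l _ z => ⟨c, umat_const l c z⟩

lemma mn_const (l : List ℕ) (c : ℝ) (z : ℕ → ℝ) : mn l (fun _ => c) z = c :=
  mn_eq (umat_const l c z)

lemma mn_add {ψ χ : (ℕ → ℝ) → ℝ} (h : UA ψ) (h' : UA χ) {l : List ℕ} (hl : l.Nodup) (z : ℕ → ℝ) :
    mn l (fun z => ψ z + χ z) z = mn l ψ z + mn l χ z :=
  mn_eq (umat_add (mn_spec h hl z) (mn_spec h' hl z))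

lemma mn_smul {ψ : (ℕ → ℝ) → ℝ} (c : ℝ) (h : UA ψ) {l : List ℕ} (hl : l.Nodup) (z : ℕ → ℝ) :
    mn l (fun z => c * ψ z) z = c * mn l ψ z :=
  mn_eq (umat_mul c (mn_spec h hl z))

lemma mn_sub {ψ χ : (ℕ → ℝ) → ℝ} (h : UA ψ) (h' : UA χ) {l : List ℕ} (hl : l.Nodup) (z : ℕ → ℝ) :
    mn l (fun z => ψ z - χ z) z = mn l ψ z - mn l χ z := by
  have e : (fun z => ψ z - χ z) = fun z => ψ z + (-1) * χ z := by funext z; ring
  rw [e, mn_add h (h'.smul (-1)) hl, mn_smul (-1) h' hl]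
  ring

lemma mn_neg {ψ : (ℕ → ℝ) → ℝ} (h : UA ψ) {l : List ℕ} (hl : l.Nodup) (z : ℕ → ℝ) :
    mn l (fun z => -ψ z) z = -mn l ψ z := by
  have e : (fun z => -ψ z) = fun z => (-1) * ψ z := by funext z; ring
  rw [e, mn_smul (-1) h hl]
  ring

lemma UA.sum {ι : Type*} (s : Finset ι) {ψ : ι → (ℕ → ℝ) → ℝ} (h : ∀ i ∈ s, UA (ψ i)) :
    UA (fun z => ∑ i ∈ s, ψ i z) := by
  classical
  induction s using Finset.induction_on with
  | empty => simpa using UA.const 0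
  | insert a s ha ih =>
    have e : (fun z => ∑ i ∈ insert a s, ψ i z) = fun z => ψ a z + ∑ i ∈ s, ψ i z := by
      funext z; rw [sum_insert ha]
    rw [e]
    exact (h a (mem_insert_self _ _)).add (ih (fun i hi => h i (mem_insert_of_mem hi)))

lemma mn_sum {ι : Type*} (s : Finset ι) {ψ : ι → (ℕ → ℝ) → ℝ} (h : ∀ i ∈ s, UA (ψ i))
    {l : List ℕ} (hl : l.Nodup) (z : ℕ → ℝ) :
    mn l (fun z => ∑ i ∈ s, ψ i z) z = ∑ i ∈ s, mn l (ψ i) z := by
  classical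
  induction s using Finset.induction_on with
  | empty => simpa using mn_const l 0 z
  | insert a s ha ih =>
    have e : (fun z => ∑ i ∈ insert a s, ψ i z) = fun z => ψ a z + ∑ i ∈ s, ψ i z := by
      funext z; rw [sum_insert ha]
    have hs : ∀ i ∈ s, UA (ψ i) := fun i hi => h i (mem_insert_of_mem hi)
    rw [e, mn_add (h a (mem_insert_self _ _)) (UA.sum s hs) hl, ih hs, sum_insert ha]

lemma UA.av {ι : Type*} (s : Finset ι) {ψ : ι → (ℕ → ℝ) → ℝ} (h : ∀ i ∈ s, UA (ψ i)) :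
    UA (fun z => av s (fun i => ψ i z)) := by
  unfold Pool.Agent.H63.NS.av
  simp only [smul_eq_mul]
  exact (UA.sum s h).smul _

lemma mn_av {ι : Type*} (s : Finset ι) {ψ : ι → (ℕ → ℝ) → ℝ} (h : ∀ i ∈ s, UA (ψ i))
    {l : List ℕ} (hl : l.Nodup) (z : ℕ → ℝ) :
    mn l (fun z => av s (fun i => ψ i z)) z = av s (fun i => mn l (ψ i) z) := by
  unfold av
  simp only [smul_eq_mul]
  rw [mn_smul _ (UA.sum s h) hl, mn_sum s h hl]

lemma mn_mono {ψ χ : (ℕ → ℝ) → ℝ} (h : UA ψ) (h' : UA χ) (hle : ∀ z, ψ z ≤ χ z) {l : List ℕ}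
    (hl : l.Nodup) (z : ℕ → ℝ) : mn l ψ z ≤ mn l χ z :=
  umat_mono (mn_spec h hl z) (mn_spec h' hl z) hle

lemma mn_le {ψ : (ℕ → ℝ) → ℝ} (h : UA ψ) {C : ℝ} (hle : ∀ z, ψ z ≤ C) {l : List ℕ}
    (hl : l.Nodup) (z : ℕ → ℝ) : mn l ψ z ≤ C :=
  umat_mono (mn_spec h hl z) (umat_const l C z) hle

lemma le_mn {ψ : (ℕ → ℝ) → ℝ} (h : UA ψ) {C : ℝ} (hle : ∀ z, C ≤ ψ z) {l : List ℕ}
    (hl : l.Nodup) (z : ℕ → ℝ) : C ≤ mn l ψ z :=
  umat_mono (umat_const l C z) (mn_spec h hl z) hle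

lemma abs_mn_le {ψ : (ℕ → ℝ) → ℝ} (h : UA ψ) {C : ℝ} (hle : ∀ z, |ψ z| ≤ C) {l : List ℕ}
    (hl : l.Nodup) (z : ℕ → ℝ) : |mn l ψ z| ≤ C :=
  abs_le.2 ⟨le_mn h (fun z => (abs_le.1 (hle z)).1) hl z, mn_le h (fun z => (abs_le.1 (hle z)).2) hl z⟩

lemma mn_close {ψ χ : (ℕ → ℝ) → ℝ} (h : UA ψ) (h' : UA χ) {ε : ℝ} (hle : ∀ z, |ψ z - χ z| ≤ ε)
    {l : List ℕ} (hl : l.Nodup) (z : ℕ → ℝ) : |mn l ψ z - mn l χ z| ≤ ε := by
  rw [← mn_sub h h' hl]
  exact abs_mn_le (h.sub h') hle hl z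

lemma mn_sq_le {ψ χ : (ℕ → ℝ) → ℝ} (h : UA ψ) (h' : UA χ) (hle : ∀ z, ψ z ^ 2 ≤ χ z) {l : List ℕ}
    (hl : l.Nodup) (z : ℕ → ℝ) : (mn l ψ z) ^ 2 ≤ mn l χ z :=
  umat_sq_le (mn_spec h hl z) (mn_spec h' hl z) hle

/-- uniform limits of functions with uniform means have uniform means -/
lemma UA.of_approx {ψ : (ℕ → ℝ) → ℝ}
    (h : ∀ ε : ℝ, 0 < ε → ∃ χ : (ℕ → ℝ) → ℝ, UA χ ∧ ∀ z, |ψ z - χ z| ≤ ε) : UA ψ := by
  intro l hl z
  choose! χ hχ hc using h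
  have hpos : ∀ n : ℕ, (0 : ℝ) < 1 / ((n : ℝ) + 1) := fun n => by positivity
  have hcau : CauchySeq (fun n : ℕ => Pool.Agent.H63.NS.mn l (χ (1 / ((n : ℝ) + 1))) z) := by
    refine cauchySeq_of_le_tendsto_0 (fun N : ℕ => 2 * (1 / ((N : ℝ) + 1))) ?_ ?_
    · intro n m N hn hm
      rw [Real.dist_eq]
      refine mn_close (hχ _ (hpos n)) (hχ _ (hpos m)) (fun z => ?_) hl z
      have h1 := hc _ (hpos n) z
      have h2 := hc _ (hpos m) z
      have h3 : 1 / ((n : ℝ) + 1) ≤ 1 / ((N : ℝ) + 1) :=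
        one_div_le_one_div_of_le (by positivity) (by
          have : (N : ℝ) ≤ n := by exact_mod_cast hn
          linarith)
      have h4 : 1 / ((m : ℝ) + 1) ≤ 1 / ((N : ℝ) + 1) :=
        one_div_le_one_div_of_le (by positivity) (by
          have : (N : ℝ) ≤ m := by exact_mod_cast hm
          linarith)
      rw [abs_le] at h1 h2 ⊢
      constructor <;> linarith [h1.1, h1.2, h2.1, h2.2]
    · have := (tendsto_one_div_add_atTop_nhds_zero_nat (𝕜 := ℝ)).const_mul 2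
      simpa using this
  obtain ⟨m, hm⟩ := cauchySeq_tendsto_of_complete hcau
  refine ⟨m, fun ε hε => ?_⟩
  have h0 : Tendsto (fun n : ℕ => 1 / ((n : ℝ) + 1)) atTop (𝓝 0) :=
    tendsto_one_div_add_atTop_nhds_zero_nat
  obtain ⟨n, hn1, hn2⟩ : ∃ n : ℕ, 1 / ((n : ℝ) + 1) < ε / 4 ∧
      |Pool.Agent.H63.NS.mn l (χ (1 / ((n : ℝ) + 1))) z - m| < ε / 4 := by
    have e1 := h0.eventually_lt_const (show (0 : ℝ) < ε / 4 by positivity)
    have e2 := Metric.tendsto_nhds.1 hm (ε / 4) (by positivity)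
    obtain ⟨n, hn⟩ := (e1.and e2).exists
    exact ⟨n, hn.1, by simpa [Real.dist_eq] using hn.2⟩
  obtain ⟨L, hL⟩ := mn_spec (hχ _ (hpos n)) hl z (ε / 4) (by positivity)
  refine ⟨max L 1, fun k K hk hK z' hz' => ?_⟩
  have h1 := hL k K (fun d hd => (le_max_left _ _).trans (hk d hd))
    (fun d hd => (le_max_left _ _).trans (hK d hd)) z' hz'
  have hK1 : ∀ d ∈ l, 1 ≤ K d := fun d hd => (le_max_right _ _).trans (hK d hd)
  have h2 : |AvL k K l ψ z' - AvL k K l (χ (1 / ((n : ℝ) + 1))) z'| ≤ 1 / ((n : ℝ) + 1) := by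
    have e : AvL k K l (fun z => ψ z - χ (1 / ((n : ℝ) + 1)) z) z' =
        AvL k K l ψ z' - AvL k K l (χ (1 / ((n : ℝ) + 1))) z' :=
      congrFun (AvL_sub k K l ψ (χ (1 / ((n : ℝ) + 1)))) z'
    rw [← e, abs_le]
    have hc' := hc _ (hpos n)
    constructor
    · have := AvL_mono k K l (ψ := fun _ => -(1 / ((n : ℝ) + 1))) (χ := fun z => ψ z -
        χ (1 / ((n : ℝ) + 1)) z) (fun z => (abs_le.1 (hc' z)).1) z'
      rwa [AvL_const k K hK1] at this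
    · have := AvL_mono k K l (χ := fun _ => 1 / ((n : ℝ) + 1)) (ψ := fun z => ψ z -
        χ (1 / ((n : ℝ) + 1)) z) (fun z => (abs_le.1 (hc' z)).2) z'
      rwa [AvL_const k K hK1] at this
  rw [abs_le] at h1 h2 ⊢
  rw [abs_lt] at hn2
  constructor <;> linarith [h1.1, h1.2, h2.1, h2.2, hn2.1, hn2.2]

end Pool.Agent.H63.NS
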